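import Pool.Agent.H242.GX.Stm4

/-! GX4-CORRK for helper242: the flat correction on almost uniform neighbourhoods (helper977; a
variation of GX-CORR by helper195). -/

set_option autoImplicit false

open Set Filter Topology
open scoped ContDiff

namespace Pool.Agent.H977.GX

open Pool.Agent.H242.GX

theorem odd_neg (X : ℝ × ℝ → ℝ × ℝ) (H : ℝ × ℝ → ℝ) (θ t : ℝ) :
    Odd X H θ (-t) = - Odd X H θ t := by
  unfold Pool.Agent.H242.GX.Odd
  rw [neg_neg]
  ring

theorem odd_zero (X : ℝ × ℝ → ℝ × ℝ) (H : ℝ × ℝ → ℝ) (θ : ℝ) : Odd X H θ 0 = 0 := by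
  unfold Pool.Agent.H242.GX.Odd
  rw [neg_zero, sub_self]

theorem gx_CORRK (hCORR1 : S_CORR1) (hCORR2K : S_CORR2K) (hPER : S_PER) (hXB : S_XB) :
    S_CORRK := by
  intro X Z hW H hH hHp hF
  obtain ⟨⟨C, hC, hXC⟩, K, r, hK, hr, hXK⟩ := hXB X Z hW
  obtain ⟨lam, s₁, g, hlam, hs₁, hg, hgb, heq⟩ := hCORR1 X Z hW H hH hF
  obtain ⟨G, hG, hG0, hG1, c₀, hc₀, hG2⟩ := hCORR2K X Z hW K lam s₁ g hK hlam hs₁ hg hgb
  obtain ⟨P, hP, hPp, hP0, hPG⟩ := hPER G hG hG0
  have hπ := Real.pi_gt_three
  have hπ0 := Real.pi_pos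
  refine ⟨P, hP, hPp, hP0, ?_, ?_⟩
  · -- the line number `0`
    refine ⟨min r (min 1 (1 / C)), by positivity, fun t ht => ?_⟩
    have ht1 : |t| < r := ht.trans_le (min_le_left _ _)
    have ht2 : |t| < 1 := ht.trans_le ((min_le_right _ _).trans (min_le_left _ _))
    have ht3 : |t| < 1 / C := ht.trans_le ((min_le_right _ _).trans (min_le_right _ _))
    have h1 := hXK t ht1
    have h2 := (hXC 0 t ht2.le).1
    rw [sub_zero] at h2
    have h3 : |(X (0, t)).1| ≤ 1 := by
      rw [lt_div_iff₀ hC] at ht3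
      linarith
    have h4 : |(X (0, t)).1| ≤ K * Real.sqrt ((X (0, t)).2 ^ 2) := by
      rw [Real.sqrt_sq_eq_abs]
      exact h1
    rcases (sq_nonneg (X (0, t)).2).eq_or_lt with h5 | h5
    · exact hP0 _ _ h5.symm.le
    · rcases le_or_gt 0 (X (0, t)).1 with h6 | h6
      · rw [abs_of_nonneg h6] at h3 h4
        rw [hPG _ _ h6 (by linarith)]
        exact hG1 _ _ h5 (Or.inl h4)
      · rw [abs_of_neg h6] at h3 h4
        rw [← hPp, hPG _ _ (by linarith) (by linarith)]
        exact hG1 _ _ h5 (Or.inr (by linarith))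
  · -- the other lines
    have hL : 0 < lam * Real.exp s₁ := by positivity
    set c : ℝ := min (min c₀ (1 / C)) (min (1 / Real.pi) (lam * Real.exp s₁ / Real.pi)) with hc
    have hcpos : 0 < c := by positivity
    have hc1 : c ≤ c₀ := (min_le_left _ _).trans (min_le_left _ _)
    have hc2 : c * C ≤ 1 := by
      have : c ≤ 1 / C := (min_le_left _ _).trans (min_le_right _ _)
      rwa [le_div_iff₀ hC] at this
    have hc3 : c * Real.pi ≤ 1 := by
      have : c ≤ 1 / Real.pi := (min_le_right _ _).trans (min_le_left _ _)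
      rwa [le_div_iff₀ hπ0] at this
    have hc4 : c * Real.pi ≤ lam * Real.exp s₁ := by
      have : c ≤ lam * Real.exp s₁ / Real.pi := (min_le_right _ _).trans (min_le_right _ _)
      rwa [le_div_iff₀ hπ0] at this
    -- the angles are in the interval
    have hin : ∀ θ t : ℝ, |t| < c * θ → |t| < c * (2 * Real.pi - θ) →
        0 < (X (θ, t)).1 ∧ (X (θ, t)).1 < 2 * Real.pi := by
      intro θ t h1 h2
      have h0 := abs_nonneg t
      have h3 : |t| < 1 := by linarith
      have h4 := (hXC θ t h3.le).1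
      have h5 : C * |t| < θ := by
        have e1 : C * |t| < C * (c * θ) := mul_lt_mul_of_pos_left h1 hC
        have hθ : 0 < θ := pos_of_mul_pos_right (lt_of_le_of_lt h0 h1) hcpos.le
        have e2 : C * (c * θ) ≤ θ := by
          have : C * (c * θ) = (c * C) * θ := by ring
          rw [this]
          exact mul_le_of_le_one_left hθ.le hc2
        linarith
      have h6 : C * |t| < 2 * Real.pi - θ := by
        have e1 : C * |t| < C * (c * (2 * Real.pi - θ)) := mul_lt_mul_of_pos_left h2 hC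
        have hθ : 0 < 2 * Real.pi - θ := pos_of_mul_pos_right (lt_of_le_of_lt h0 h2) hcpos.le
        have e2 : C * (c * (2 * Real.pi - θ)) ≤ 2 * Real.pi - θ := by
          have : C * (c * (2 * Real.pi - θ)) = (c * C) * (2 * Real.pi - θ) := by ring
          rw [this]
          exact mul_le_of_le_one_left hθ.le hc2
        linarith
      obtain ⟨h7, h8⟩ := abs_le.1 h4
      constructor <;> linarith
    have key : ∀ θ t : ℝ, 0 < t → t < c * θ → t < c * (2 * Real.pi - θ) →
        Odd X (fun x => H x + P x) θ t = 0 := by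
      intro θ t ht0 h1 h2
      have hθ : 0 < θ := pos_of_mul_pos_right (ht0.trans h1) hcpos.le
      have hθ' : 0 < 2 * Real.pi - θ := pos_of_mul_pos_right (ht0.trans h2) hcpos.le
      obtain ⟨e1, e2⟩ := hG2 θ t ht0 (h1.trans_le (mul_le_mul_of_nonneg_right hc1 hθ.le))
        (h2.trans_le (mul_le_mul_of_nonneg_right hc1 hθ'.le))
      obtain ⟨p1, p2⟩ := hin θ t (by rwa [abs_of_pos ht0]) (by rwa [abs_of_pos ht0])
      obtain ⟨p3, p4⟩ := hin θ (-t) (by rwa [abs_neg, abs_of_pos ht0])
        (by rwa [abs_neg, abs_of_pos ht0])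
      have ht3 : t < lam * Real.exp s₁ := by linarith
      have e3 := heq (θ, Real.log (t / lam)) (by simp only; linarith) (by simp only; linarith) (by
        simp only
        rw [Real.log_lt_iff_lt_exp (by positivity), div_lt_iff₀ hlam]
        linarith)
      simp only at e3
      have e4 : lam * Real.exp (Real.log (t / lam)) = t := by
        rw [Real.exp_log (by positivity)]
        field_simp
      rw [e4, ← e1, ← e2, ← hPG _ _ p1.le p2.le, ← hPG _ _ p3.le p4.le] at e3
      unfold Pool.Agent.H242.GX.Odd at e3 ⊢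
      linarith
    refine ⟨c, hcpos, fun θ t h1 h2 => ?_⟩
    rcases lt_trichotomy t 0 with h | h | h
    · rw [abs_of_neg h] at h1 h2
      have h3 := key θ (-t) (by linarith) h1 h2
      rw [odd_neg] at h3
      linarith
    · subst h
      exact odd_zero _ _ _
    · rw [abs_of_pos h] at h1 h2
      exact key θ t h h1 h2

end Pool.Agent.H977.GX
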