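import Pool.Agent.H242.GX.Stm5

/-!
# GX5-EXP: Taylor expansion of order 5 of a composition
-/

set_option autoImplicit false

open Set Filter Topology
open scoped ContDiff

namespace Pool.Agent.H977.GXE

open Pool.Agent.H242.GX

/-- The mean value inequality. -/
lemma step {h h' : ℝ → ℝ} (hd : ∀ s, HasDerivAt h (h' s) s) (h0 : h 0 = 0) {C : ℝ} (hC : 0 ≤ C)
    {n : ℕ} (hb : ∀ s, |s| ≤ 1 → |h' s| ≤ C * |s| ^ n) :
    ∀ s, |s| ≤ 1 → |h s| ≤ C * |s| ^ (n + 1) := by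
  intro s hs
  have h1 := Convex.norm_image_sub_le_of_norm_hasDerivWithin_le (f := h) (f' := h')
    (C := C * |s| ^ n) (s := Metric.closedBall (0 : ℝ) |s|) (x := 0) (y := s)
    (fun x _ => (hd x).hasDerivWithinAt)
    (fun x hx => by
      have h2 : |x| ≤ |s| := by simpa using hx
      rw [Real.norm_eq_abs]
      exact (hb x (h2.trans hs)).trans
        (mul_le_mul_of_nonneg_left (pow_le_pow_left₀ (abs_nonneg x) h2 n) hC))
    (convex_closedBall _ _) (by simp) (by simp)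
  rw [h0, sub_zero, sub_zero, Real.norm_eq_abs, Real.norm_eq_abs] at h1
  rw [pow_succ, ← mul_assoc]
  exact h1

/-- Taylor's formula with a bound for the remainder. -/
lemma taylor : ∀ (n : ℕ) (f : ℝ → ℝ), ContDiff ℝ ∞ f → ∀ t : ℝ, ∃ C : ℝ, 0 ≤ C ∧ ∀ s : ℝ,
    |s| ≤ 1 → |f (t + s) - ∑ j ∈ Finset.range n, iteratedDeriv j f t / (j.factorial : ℝ) * s ^ j| ≤
      C * |s| ^ n := by
  intro n
  induction n with
  | zero =>
    intro f hf t
    obtain ⟨C, hC⟩ := (isCompact_closedBall (0 : ℝ) 1).exists_bound_of_continuousOn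
      (f := fun s => f (t + s)) (hf.continuous.comp (continuous_const.add continuous_id)).continuousOn
    refine ⟨C, (norm_nonneg _).trans (hC 0 (by simp)), fun s hs => ?_⟩
    have := hC s (by simpa using hs)
    simpa using this
  | succ n ih =>
    intro f hf t
    have hf' : ContDiff ℝ ∞ (deriv f) := ((contDiff_succ_iff_deriv (n := ∞)).1 hf).2.2
    have hdf : Differentiable ℝ f := hf.differentiable (by simp)
    obtain ⟨C, hC, h1⟩ := ih (deriv f) hf' t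
    refine ⟨C, hC, step (h := fun s => f (t + s) - ∑ j ∈ Finset.range (n + 1),
      iteratedDeriv j f t / (j.factorial : ℝ) * s ^ j)
      (h' := fun s => deriv f (t + s) - ∑ j ∈ Finset.range n,
        iteratedDeriv j (deriv f) t / (j.factorial : ℝ) * s ^ j) (fun s => ?_) ?_ hC h1⟩
    · have h2 : HasDerivAt (fun s => f (t + s)) (deriv f (t + s)) s := by
        have h3 := (hdf (t + s)).hasDerivAt
        exact h3.comp_const_add t s
      refine h2.sub ?_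
      have h4 : HasDerivAt (fun s : ℝ => ∑ j ∈ Finset.range (n + 1),
          iteratedDeriv j f t / (j.factorial : ℝ) * s ^ j)
          (∑ j ∈ Finset.range (n + 1), iteratedDeriv j f t / (j.factorial : ℝ) *
            ((j : ℝ) * s ^ (j - 1))) s := by
        refine HasDerivAt.fun_sum fun j _ => ?_
        exact (hasDerivAt_pow j s).const_mul _
      have h7 : (∑ j ∈ Finset.range (n + 1), iteratedDeriv j f t / (j.factorial : ℝ) *
            ((j : ℝ) * s ^ (j - 1))) =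
          ∑ j ∈ Finset.range n, iteratedDeriv j (deriv f) t / (j.factorial : ℝ) * s ^ j := by
        rw [Finset.sum_range_succ']
        simp only [Nat.cast_zero, zero_mul, mul_zero, add_zero, Nat.add_sub_cancel]
        refine Finset.sum_congr rfl fun j _ => ?_
        rw [iteratedDeriv_succ', Nat.factorial_succ]
        have h5 : ((j : ℝ) + 1) ≠ 0 := by positivity
        have h6 : ((j.factorial : ℕ) : ℝ) ≠ 0 := by positivity
        push_cast
        field_simp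
      rw [← h7]
      exact h4
    · simp [Finset.sum_range_succ']

/-- The quotient by a power. -/
lemma quot {F : ℝ → ℝ} {n : ℕ} (h : ∃ C : ℝ, 0 ≤ C ∧ ∀ s : ℝ, |s| ≤ 1 → |F s| ≤ C * |s| ^ n) :
    ∃ (C : ℝ) (r : ℝ → ℝ), 0 ≤ C ∧ ∀ s : ℝ, |s| ≤ 1 → |r s| ≤ C ∧ F s = s ^ n * r s := by
  obtain ⟨C, hC, h⟩ := h
  refine ⟨C, fun s => F s / s ^ n, hC, fun s hs => ?_⟩
  by_cases hs0 : s ^ n = 0
  · have h1 := h s hs
    rw [← abs_pow, hs0, abs_zero, mul_zero] at h1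
    have h2 : F s = 0 := abs_nonpos_iff.1 h1
    refine ⟨?_, ?_⟩
    · simp only [h2, zero_div, abs_zero]
      exact hC
    · rw [h2, hs0, zero_mul]
  · refine ⟨?_, ?_⟩
    · have h1 := h s hs
      have h3 : 0 < |s ^ n| := abs_pos.2 hs0
      rw [← abs_pow] at h1
      change |F s / s ^ n| ≤ C
      rw [abs_div, div_le_iff₀ h3]
      exact h1
    · change F s = s ^ n * (F s / s ^ n)
      field_simp

/-- A polynomial expression in bounded quantities is bounded. -/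
lemma bdd (G : ℝ × ℝ × ℝ × ℝ × ℝ → ℝ) (hG : Continuous G) (C : ℝ) : ∃ D : ℝ, ∀ s r q p v : ℝ,
    |s| ≤ C → |r| ≤ C → |q| ≤ C → |p| ≤ C → |v| ≤ C → |G (s, r, q, p, v)| ≤ D := by
  obtain ⟨D, hD⟩ := (isCompact_closedBall (0 : ℝ × ℝ × ℝ × ℝ × ℝ) C).exists_bound_of_continuousOn
    (f := G) hG.continuousOn
  refine ⟨D, fun s r q p v h1 h2 h3 h4 h5 => ?_⟩
  have := hD (s, r, q, p, v) (by
    rw [mem_closedBall_zero_iff]
    simp only [Prod.norm_def, Real.norm_eq_abs]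
    exact max_le h1 (max_le h2 (max_le h3 (max_le h4 h5))))
  simpa using this

/-- The coefficient of `s ^ 6`. -/
def GG (a0 a1 a2 a3 b0 b1 b2 b3 c0 c1 : ℝ) (x : ℝ × ℝ × ℝ × ℝ × ℝ) : ℝ :=
  (a1 * b3 + a2 * b2 + a3 * b1) + (a2 * b3 + a3 * b2) * x.1 + a3 * b3 * x.1 ^ 2 +
  (a0 + a1 * x.1 + a2 * x.1 ^ 2 + a3 * x.1 ^ 3) * x.2.2.1 +
  x.2.1 * (b0 + b1 * x.1 + b2 * x.1 ^ 2 + b3 * x.1 ^ 3) + x.1 ^ 4 * x.2.1 * x.2.2.1 +
  ((a1 + a2 * x.1 + a3 * x.1 ^ 2) ^ 2 * c0 + 2 * a0 * (a1 + a2 * x.1 + a3 * x.1 ^ 2) * c1 +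
    x.1 * (a1 + a2 * x.1 + a3 * x.1 ^ 2) ^ 2 * c1 + 2 * a0 * c0 * (a2 + a3 * x.1)) +
  (a0 + a1 * x.1 + a2 * x.1 ^ 2 + a3 * x.1 ^ 3) ^ 2 * x.2.2.2.1 +
  x.1 ^ 2 * (2 * (a0 + a1 * x.1 + a2 * x.1 ^ 2 + a3 * x.1 ^ 3) * x.2.1 + x.1 ^ 4 * x.2.1 ^ 2) *
    (c0 + c1 * x.1 + x.1 ^ 2 * x.2.2.2.1) +
  (a0 + a1 * x.1 + a2 * x.1 ^ 2 + a3 * x.1 ^ 3 + x.1 ^ 4 * x.2.1) ^ 3 * x.2.2.2.2

lemma GG_cont (a0 a1 a2 a3 b0 b1 b2 b3 c0 c1 : ℝ) :
    Continuous (GG a0 a1 a2 a3 b0 b1 b2 b3 c0 c1) := by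
  unfold GG
  fun_prop

lemma alg (a0 a1 a2 a3 b0 b1 b2 b3 c0 c1 s r q p v : ℝ) :
    (s ^ 2 * (a0 + a1 * s + a2 * s ^ 2 + a3 * s ^ 3) + s ^ 6 * r) *
        (b0 + b1 * s + b2 * s ^ 2 + b3 * s ^ 3 + s ^ 4 * q) +
      (s ^ 2 * (a0 + a1 * s + a2 * s ^ 2 + a3 * s ^ 3) + s ^ 6 * r) ^ 2 *
        (c0 + c1 * s + s ^ 2 * p) +
      (s ^ 2 * (a0 + a1 * s + a2 * s ^ 2 + a3 * s ^ 3) + s ^ 6 * r) ^ 3 * v -
      (a0 * b0 * s ^ 2 + (a0 * b1 + a1 * b0) * s ^ 3 +
        (a0 * b2 + a1 * b1 + a2 * b0 + a0 ^ 2 * c0) * s ^ 4 +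
        (a0 * b3 + a1 * b2 + a2 * b1 + a3 * b0 + 2 * a0 * a1 * c0 + a0 ^ 2 * c1) * s ^ 5) =
      s ^ 6 * GG a0 a1 a2 a3 b0 b1 b2 b3 c0 c1 (s, r, q, p, v) := by
  simp only [GG]
  ring

theorem main (hHAD : S_HAD) : S_EXP := by
  intro g N hg hN h0
  -- three times Hadamard
  obtain ⟨N₁, hN₁, e₁⟩ := hHAD N hN h0
  have hx : ContDiff ℝ ∞ (fun x : ℝ => ((x, 0) : ℝ × ℝ)) := contDiff_id.prodMk contDiff_const
  have hfx : ContDiff ℝ ∞ (fun z : ℝ × ℝ => ((z.1, 0) : ℝ × ℝ)) :=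
    contDiff_fst.prodMk contDiff_const
  obtain ⟨N₂, hN₂, e₂⟩ := hHAD (fun z => N₁ z - N₁ (z.1, 0)) (hN₁.sub (hN₁.comp hfx))
    (fun θ => sub_self _)
  obtain ⟨N₃, hN₃, e₃⟩ := hHAD (fun z => N₂ z - N₂ (z.1, 0)) (hN₂.sub (hN₂.comp hfx))
    (fun θ => sub_self _)
  refine ⟨fun x => N₁ (x, 0), fun x => N₂ (x, 0), hN₁.comp hx, hN₂.comp hx, fun x => ?_, ?_⟩
  · have h1 : HasDerivAt (fun η : ℝ => N (x, η)) (N₁ (x, 0)) 0 := by
      have h2 : (fun η : ℝ => N (x, η)) = fun η => η * N₁ (x, η) := funext fun η => e₁ x η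
      rw [h2]
      have h3 : DifferentiableAt ℝ (fun η : ℝ => N₁ (x, η)) 0 := by
        have h4 : ContDiff ℝ ∞ (fun η : ℝ => N₁ (x, η)) :=
          hN₁.comp (contDiff_const.prodMk contDiff_id)
        exact (h4.differentiable (by simp)) 0
      have h5 := (hasDerivAt_id (0 : ℝ)).mul h3.hasDerivAt
      have h6 : (1 : ℝ) * N₁ (x, 0) + id 0 * deriv (fun η : ℝ => N₁ (x, η)) 0 = N₁ (x, 0) := by
        simp
      rw [h6] at h5
      exact h5
    exact h1.deriv.symm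
  · intro w hw t
    set m : ℝ → ℝ := fun x => N₁ (x, 0) with hm
    set m₂ : ℝ → ℝ := fun x => N₂ (x, 0) with hm₂
    obtain ⟨C₁, r, hC₁, hr⟩ := quot (taylor 6 g hg t)
    obtain ⟨C₂, q, hC₂, hq⟩ := quot (taylor 4 m (hN₁.comp hx) t)
    obtain ⟨C₃, p, hC₃, hp⟩ := quot (taylor 2 m₂ (hN₂.comp hx) t)
    have hvc : Continuous (fun s : ℝ => N₃ (t + s, g t + deriv g t * s - g (t + s))) := by
      have h1 := hN₃.continuous
      have h2 := hg.continuous
      fun_prop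
    obtain ⟨C₄, hv⟩ := (isCompact_closedBall (0 : ℝ) 1).exists_bound_of_continuousOn
      hvc.continuousOn
    obtain ⟨D, hD⟩ := bdd _ (GG_cont (-(w t / 2)) (-(deriv w t / 6)) (-(deriv (deriv w) t / 24))
      (-(deriv (deriv (deriv w)) t / 120)) (m t) (deriv m t) (deriv (deriv m) t / 2)
      (deriv (deriv (deriv m)) t / 6) (m₂ t) (deriv m₂ t)) (1 + C₁ + C₂ + C₃ + |C₄|)
    refine ⟨D, fun s hs => ?_⟩
    obtain ⟨r1, r2⟩ := hr s hs
    obtain ⟨q1, q2⟩ := hq s hs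
    obtain ⟨p1, p2⟩ := hp s hs
    have v1 := hv s (by simpa using hs)
    rw [Real.norm_eq_abs] at v1
    have hC4 := le_abs_self C₄
    have hC4' := abs_nonneg C₄
    have hb := hD s (-r s) (q s) (p s) (N₃ (t + s, g t + deriv g t * s - g (t + s)))
      (by linarith) (by rw [abs_neg]; linarith) (by linarith) (by linarith) (by linarith)
    simp only [Finset.sum_range_succ, Finset.sum_range_zero, iteratedDeriv_succ, iteratedDeriv_zero,
      Nat.factorial] at r2 q2 p2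
    rw [← hw] at r2
    push_cast at r2 q2 p2
    have u1 : g t + deriv g t * s - g (t + s) = s ^ 2 * (-(w t / 2) + -(deriv w t / 6) * s +
        -(deriv (deriv w) t / 24) * s ^ 2 + -(deriv (deriv (deriv w)) t / 120) * s ^ 3) +
        s ^ 6 * (-r s) := by
      linarith
    have u2 : m (t + s) = m t + deriv m t * s + deriv (deriv m) t / 2 * s ^ 2 +
        deriv (deriv (deriv m)) t / 6 * s ^ 3 + s ^ 4 * q s := by
      linarith
    have u3 : m₂ (t + s) = m₂ t + deriv m₂ t * s + s ^ 2 * p s := by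
      linarith
    have u4 : N (t + s, g t + deriv g t * s - g (t + s)) =
        (g t + deriv g t * s - g (t + s)) * m (t + s) +
        (g t + deriv g t * s - g (t + s)) ^ 2 * m₂ (t + s) +
        (g t + deriv g t * s - g (t + s)) ^ 3 *
          N₃ (t + s, g t + deriv g t * s - g (t + s)) := by
      have k1 := e₁ (t + s) (g t + deriv g t * s - g (t + s))
      have k2 := e₂ (t + s) (g t + deriv g t * s - g (t + s))
      have k3 := e₃ (t + s) (g t + deriv g t * s - g (t + s))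
      simp only at k2 k3
      have k4 : N₁ (t + s, g t + deriv g t * s - g (t + s)) = m (t + s) +
        (g t + deriv g t * s - g (t + s)) * N₂ (t + s, g t + deriv g t * s - g (t + s)) := by
        rw [← k2]; simp only [hm]; ring
      have k5 : N₂ (t + s, g t + deriv g t * s - g (t + s)) = m₂ (t + s) +
        (g t + deriv g t * s - g (t + s)) * N₃ (t + s, g t + deriv g t * s - g (t + s)) := by
        rw [← k3]; simp only [hm₂]; ring
      rw [k1, k4, k5]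
      ring
    generalize N₃ (t + s, g t + deriv g t * s - g (t + s)) = v at hb u4
    rw [u4, u2, u3, u1]
    have hA := alg (-(w t / 2)) (-(deriv w t / 6)) (-(deriv (deriv w) t / 24))
      (-(deriv (deriv (deriv w)) t / 120)) (m t) (deriv m t) (deriv (deriv m) t / 2)
      (deriv (deriv (deriv m)) t / 6) (m₂ t) (deriv m₂ t) s (-r s) (q s) (p s) v
    have hfin : ∀ X Y Z : ℝ, X - Y = s ^ 6 * GG (-(w t / 2)) (-(deriv w t / 6))
      (-(deriv (deriv w) t / 24)) (-(deriv (deriv (deriv w)) t / 120)) (m t) (deriv m t)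
      (deriv (deriv m) t / 2) (deriv (deriv (deriv m)) t / 6) (m₂ t) (deriv m₂ t)
      (s, -r s, q s, p s, v) → Y = Z → |X - Z| ≤ D * |s| ^ 6 := by
      rintro X Y Z h rfl
      rw [h, abs_mul, abs_pow, mul_comm]
      exact mul_le_mul_of_nonneg_right hb (by positivity)
    refine hfin _ _ _ hA ?_
    ring

end Pool.Agent.H977.GXE

namespace Pool.Agent.H977.GX

open Pool.Agent.H242.GX

/-- **GX5-EXP.** -/
theorem gx_EXP (hHAD : S_HAD) : S_EXP := Pool.Agent.H977.GXE.main hHAD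

end Pool.Agent.H977.GX
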